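import Pool.Agent.Q145.LS.Stm
import Pool.Agent.Q261.SZ.VAR

/-!
# Project LS, job VARS: the variance of the truncated sum
-/

set_option autoImplicit false

namespace Pool.Agent.Q145.LS

open Finset Filter
open Pool.Agent.Q145.SZ

namespace VarS

/-- nearly independent coordinates, with different lengths -/
theorem den {Λ : Type} [DecidableEq Λ] {K : ℕ} (C : Fin K → Finset ℕ) (ℓ : ℕ → Λ) (L : Finset Λ)
    (T : ℝ) (U : Fin K → ℝ) (hU : ∀ i, T ≤ U i) (hL : L.Nonempty)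
    (hT : 4 * (K + 1) * (L.card : ℝ) ≤ T)
    (hC : ∀ i, ∀ s ∈ C i, ℓ s ∈ L)
    (hcnt : ∀ i, ∀ x ∈ L, |(((C i).filter fun s => ℓ s = x).card : ℝ) - U i / L.card| ≤ 1)
    (g : (Fin K → Λ) → ℝ) (hg : ∀ x ∈ Fintype.piFinset (fun _ : Fin K => L), |g x| ≤ 1) :
    |∑ s ∈ Fintype.piFinset C, g (fun i => ℓ (s i)) -
      ((Fintype.piFinset C).card : ℝ) / (L.card : ℝ) ^ K *
        ∑ x ∈ Fintype.piFinset (fun _ : Fin K => L), g x| ≤
      8 * K * L.card / T * (Fintype.piFinset C).card := by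
  set q : ℝ := (L.card : ℝ) with hq
  have hq1 : 1 ≤ q := by
    rw [hq]
    exact_mod_cast hL.card_pos
  have hT0 : 0 < T := by
    refine lt_of_lt_of_le ?_ hT
    positivity
  have hK0 : (0 : ℝ) ≤ K := Nat.cast_nonneg _
  have hTq : 2 * q ≤ T := by nlinarith
  -- the sizes
  have hcard : ∀ i, |((C i).card : ℝ) - U i| ≤ q := by
    intro i
    have h1 : (C i).card = ∑ x ∈ L, ((C i).filter fun s => ℓ s = x).card :=
      card_eq_sum_card_fiberwise fun s hs => hC i s hs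
    have h2 : ((C i).card : ℝ) - U i = ∑ x ∈ L, ((((C i).filter fun s => ℓ s = x).card : ℝ) -
        U i / L.card) := by
      rw [h1, sum_sub_distrib, sum_const, nsmul_eq_mul, ← hq, mul_div_cancel₀ _ (by positivity)]
      push_cast
      rfl
    rw [h2]
    refine (abs_sum_le_sum_abs _ _).trans ((sum_le_card_nsmul _ _ 1 (hcnt i)).trans ?_)
    rw [nsmul_eq_mul, mul_one]
  have hpos : ∀ i, T / 2 ≤ ((C i).card : ℝ) := by
    intro i
    have := (abs_le.1 (hcard i)).1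
    have := hU i
    linarith
  have hpos' : ∀ i, (0 : ℝ) < (C i).card := fun i => lt_of_lt_of_le (by positivity) (hpos i)
  -- the fibres
  have hfib : ∑ s ∈ Fintype.piFinset C, g (fun i => ℓ (s i)) =
      ∑ x ∈ Fintype.piFinset (fun _ : Fin K => L),
        g x * ∏ i, (((C i).filter fun s => ℓ s = x i).card : ℝ) := by
    have h1 : ∀ s ∈ Fintype.piFinset C, (fun i => ℓ (s i)) ∈
        Fintype.piFinset (fun _ : Fin K => L) := by
      intro s hs
      rw [Fintype.mem_piFinset] at hs ⊢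
      exact fun i => hC i _ (hs i)
    rw [← sum_fiberwise_of_maps_to h1]
    refine sum_congr rfl fun x _ => ?_
    have h2 : (Fintype.piFinset C).filter (fun s => (fun i => ℓ (s i)) = x) =
        Fintype.piFinset fun i => (C i).filter fun s => ℓ s = x i := by
      ext s
      simp only [mem_filter, Fintype.mem_piFinset, funext_iff, forall_and]
    have h3 : ∀ s ∈ (Fintype.piFinset C).filter (fun s => (fun i => ℓ (s i)) = x),
        g (fun i => ℓ (s i)) = g x := fun s hs => by rw [(mem_filter.1 hs).2]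
    rw [sum_congr rfl h3, sum_const, h2, Fintype.card_piFinset, nsmul_eq_mul, mul_comm]
    push_cast
    rfl
  have hden : ∀ x ∈ Fintype.piFinset (fun _ : Fin K => L),
      |∏ i, (((C i).filter fun s => ℓ s = x i).card : ℝ) -
        ((Fintype.piFinset C).card : ℝ) / q ^ K| ≤
      ((Fintype.piFinset C).card : ℝ) / q ^ K * (8 * K * q / T) := by
    intro x hx
    rw [Fintype.mem_piFinset] at hx
    set r : Fin K → ℝ := fun i => q * (((C i).filter fun s => ℓ s = x i).card : ℝ) / (C i).card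
      with hr
    have h1 : ∀ i, |r i - 1| ≤ 4 * q / T := by
      intro i
      have h2 : r i - 1 = (q * ((((C i).filter fun s => ℓ s = x i).card : ℝ) - U i / q) -
          ((C i).card - U i)) / (C i).card := by
        rw [hr]
        have := hpos' i
        field_simp
        ring
      rw [h2, abs_div, abs_of_pos (hpos' i)]
      have h3 : |q * ((((C i).filter fun s => ℓ s = x i).card : ℝ) - U i / q) -
          ((C i).card - U i)| ≤ 2 * q := by
        refine (abs_sub _ _).trans ?_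
        rw [abs_mul, abs_of_pos (by linarith : (0 : ℝ) < q)]
        have h4 := hcnt i (x i) (hx i)
        have h5 := hcard i
        nlinarith
      calc _ ≤ 2 * q / (T / 2) := div_le_div₀ (by positivity) h3 (by positivity) (hpos i)
        _ = 4 * q / T := by
          field_simp
          ring
    have h2 := Pool.Agent.Q261.SZ.prod_close r (by positivity) h1 (by
      rw [mul_div_assoc', div_le_one hT0]
      nlinarith)
    have h3 : ∏ i, (((C i).filter fun s => ℓ s = x i).card : ℝ) =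
        ((Fintype.piFinset C).card : ℝ) / q ^ K * ∏ i, r i := by
      rw [hr, Fintype.card_piFinset]
      simp only [prod_div_distrib, prod_mul_distrib, prod_const, card_univ, Fintype.card_fin]
      push_cast
      have h4 : ∏ i : Fin K, ((C i).card : ℝ) ≠ 0 := prod_ne_zero_iff.2 fun i _ => (hpos' i).ne'
      have h5 : q ^ K ≠ 0 := by positivity
      exact Pool.Agent.Q261.SZ.cancel4 _ _ _ h4 h5
    have h4 : (0 : ℝ) ≤ ((Fintype.piFinset C).card : ℝ) / q ^ K := by positivity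
    have h5 : ((Fintype.piFinset C).card : ℝ) / q ^ K * ∏ i, r i -
        ((Fintype.piFinset C).card : ℝ) / q ^ K =
        ((Fintype.piFinset C).card : ℝ) / q ^ K * (∏ i, r i - 1) := by ring
    rw [h3, h5, abs_mul, abs_of_nonneg h4]
    refine mul_le_mul_of_nonneg_left (h2.trans (le_of_eq ?_)) h4
    ring
  have hcardL : ((Fintype.piFinset (fun _ : Fin K => L)).card : ℝ) = q ^ K := by
    rw [Fintype.card_piFinset, prod_const, card_univ, Fintype.card_fin]
    push_cast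
    rfl
  rw [hfib, mul_sum, ← sum_sub_distrib]
  refine (abs_sum_le_sum_abs _ _).trans ?_
  have hfin : ∀ x ∈ Fintype.piFinset (fun _ : Fin K => L),
      |g x * ∏ i, (((C i).filter fun s => ℓ s = x i).card : ℝ) -
        ((Fintype.piFinset C).card : ℝ) / q ^ K * g x| ≤
      ((Fintype.piFinset C).card : ℝ) / q ^ K * (8 * K * q / T) := by
    intro x hx
    rw [mul_comm _ (g x), ← mul_sub, abs_mul]
    refine (mul_le_mul_of_nonneg_right (hg x hx) (abs_nonneg _)).trans ?_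
    rw [one_mul]
    exact hden x hx
  refine (sum_le_card_nsmul _ _ _ hfin).trans ?_
  rw [nsmul_eq_mul, hcardL]
  have h5 : q ^ K ≠ 0 := by positivity
  refine le_of_eq ?_
  field_simp

theorem cnt_mod (L X M c : ℕ) (hM : 0 < M) :
    |(((Ioc L (L + X)).filter fun s => s ≡ c [MOD M]).card : ℝ) - X / M| ≤ 1 := by
  have h1 := Nat.Ioc_filter_modEq_card L (L + X) hM c
  set A : ℤ := ⌊((((L + X : ℕ)) : ℚ) - c) / M⌋ with hA
  set B : ℤ := ⌊(((L : ℕ) : ℚ) - c) / M⌋ with hB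
  have hM' : (0 : ℚ) < M := by exact_mod_cast hM
  have a1 := Int.floor_le (((((L + X : ℕ)) : ℚ) - c) / M)
  have a2 := Int.lt_floor_add_one (((((L + X : ℕ)) : ℚ) - c) / M)
  have b1 := Int.floor_le ((((L : ℕ) : ℚ) - c) / M)
  have b2 := Int.lt_floor_add_one ((((L : ℕ) : ℚ) - c) / M)
  rw [← hA] at a1 a2
  rw [← hB] at b1 b2
  have e1 : ((((L + X : ℕ)) : ℚ) - c) / M = X / M + (L / M - c / M) := by push_cast; ring
  have e2 : ((((L : ℕ) : ℚ)) - c) / M = L / M - c / M := by ring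
  rw [e1] at a1 a2
  rw [e2] at b1 b2
  have c1 : (A : ℚ) - B ≤ X / M + 1 := by linarith
  have c2 : (X : ℚ) / M - 1 ≤ (A : ℚ) - B := by linarith
  have c3 : 0 ≤ A - B := by
    have : (-1 : ℚ) < (A : ℚ) - B := by
      have h3 : (0 : ℚ) ≤ X / M := by positivity
      linarith
    have : (-1 : ℤ) < A - B := by exact_mod_cast this
    omega
  rw [max_eq_left c3] at h1
  have h3 : (((Ioc L (L + X)).filter fun s => s ≡ c [MOD M]).card : ℚ) = (A : ℚ) - B := by
    exact_mod_cast h1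
  have h4 : |(((Ioc L (L + X)).filter fun s => s ≡ c [MOD M]).card : ℚ) - X / M| ≤ 1 := by
    rw [h3, abs_le]
    constructor <;> linarith
  have h5 := (Rat.cast_le (K := ℝ)).2 h4
  push_cast at h5
  exact h5

theorem cnt_bcl {W : ℕ} [NeZero W] (X : ℕ) (a : ℤ) (m c : ℕ) (hm : 0 < m) (hW : W.Coprime m)
    (β : ZMod W) :
    |(((bcl X a β).filter fun s => s ≡ c [MOD m]).card : ℝ) -
      ((a.natAbs * X : ℕ) : ℝ) / W / m| ≤ 1 := by
  have hW0 : 0 < W := Nat.pos_of_ne_zero (NeZero.ne W)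
  obtain ⟨d, hd1, hd2⟩ := Nat.chineseRemainder hW β.val c
  have h1 := cnt_mod (lo X a) (a.natAbs * X) (W * m) d (Nat.mul_pos hW0 hm)
  have h2 : (bcl X a β).filter (fun s => s ≡ c [MOD m]) =
      (Ioc (lo X a) (lo X a + a.natAbs * X)).filter fun s => s ≡ d [MOD (W * m)] := by
    unfold bcl bx
    rw [filter_filter]
    refine filter_congr fun s _ => ?_
    rw [← Nat.modEq_and_modEq_iff_modEq_mul hW]
    have h3 : (s : ZMod W) = β ↔ s ≡ d [MOD W] := by
      rw [← ZMod.natCast_eq_natCast_iff]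
      have h4 : (d : ZMod W) = β := by
        have := (ZMod.natCast_eq_natCast_iff _ _ _).2 hd1
        rw [this, ZMod.natCast_val, ZMod.cast_id]
      rw [h4]
    rw [h3]
    constructor
    · rintro ⟨h4, h5⟩
      exact ⟨h4, h5.trans hd2.symm⟩
    · rintro ⟨h4, h5⟩
      exact ⟨h4, h5.trans hd2⟩
  rw [h2]
  rw [Nat.cast_mul W m] at h1
  rwa [div_div]

theorem locS_mod {K : ℕ} (a : Fin K → ℤ) (s : Fin K → ℕ) (p : ℕ) :
    locS a (fun i => s i % p) p = locS a s p := by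
  have : nuS a (fun i => s i % p) p = nuS a s p := by
    unfold nuS
    congr 1
    refine filter_congr fun n _ => ?_
    refine or_congr Iff.rfl (exists_congr fun i => ?_)
    have h : ((s i % p : ℕ) : ℤ) = (s i : ℤ) % p := Int.natCast_mod _ _
    rw [h]
    have h2 : (a i * n + (s i : ℤ)) = (a i * n + (s i : ℤ) % p) + p * ((s i : ℤ) / p) := by
      have := Int.emod_add_mul_ediv (s i : ℤ) p
      linarith
    rw [h2]
    exact (Int.dvd_add_left (Dvd.intro _ rfl)).symm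
  unfold locS
  rw [this]

theorem nuS_le {K : ℕ} (a : Fin K → ℤ) (s : Fin K → ℕ) {p : ℕ} (hp : p.Prime)
    (ha : ∀ i, ¬ (p : ℤ) ∣ a i) : nuS a s p ≤ K + 1 := by
  classical
  unfold nuS
  have h1 : (range p).filter (fun n : ℕ => n = 0 ∨ ∃ i, (p : ℤ) ∣ a i * n + s i) ⊆
      {0} ∪ (univ : Finset (Fin K)).biUnion fun i =>
        (range p).filter fun n : ℕ => (p : ℤ) ∣ a i * n + s i := by
    intro n hn
    rw [mem_filter] at hn
    rw [mem_union, mem_singleton, mem_biUnion]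
    rcases hn.2 with h | ⟨i, h⟩
    · exact Or.inl h
    · exact Or.inr ⟨i, mem_univ i, mem_filter.2 ⟨hn.1, h⟩⟩
  refine (card_le_card h1).trans ((card_union_le _ _).trans ?_)
  rw [card_singleton, add_comm]
  refine Nat.add_le_add_right ?_ 1
  refine card_biUnion_le.trans ?_
  have h2 : ∀ i ∈ (univ : Finset (Fin K)),
      ((range p).filter fun n : ℕ => (p : ℤ) ∣ a i * n + s i).card ≤ 1 := by
    intro i _
    rw [card_le_one]
    intro n hn m hm
    rw [mem_filter, mem_range] at hn hm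
    have h3 : (p : ℤ) ∣ a i * ((n : ℤ) - m) := by
      have := dvd_sub hn.2 hm.2
      have e : a i * (n : ℤ) + s i - (a i * m + s i) = a i * ((n : ℤ) - m) := by ring
      rwa [e] at this
    have h4 := (Nat.prime_iff_prime_int.1 hp).dvd_or_dvd h3
    rcases h4 with h4 | h4
    · exact absurd h4 (ha i)
    · have h5 := Int.emod_emod_of_dvd
      have h6 : (n : ℤ) ≡ m [ZMOD p] := (Int.modEq_iff_dvd.2 h4).symm
      have h7 : n ≡ m [MOD p] := (Int.natCast_modEq_iff).1 h6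
      exact Nat.ModEq.eq_of_lt_of_lt h7 hn.1 hm.1
  refine (sum_le_sum h2).trans ?_
  simp

theorem locS_bds {K : ℕ} (a : Fin K → ℤ) (s : Fin K → ℕ) {p : ℕ} (hp : p.Prime)
    (ha : ∀ i, ¬ (p : ℤ) ∣ a i) (hK : 8 * (K + 1) ≤ p) :
    0 ≤ locS a s p ∧ locS a s p ≤ 8 / 7 := by
  have hp0 : (0 : ℝ) < p := by exact_mod_cast hp.pos
  have hp2 : (2 : ℝ) ≤ p := by exact_mod_cast hp.two_le
  have hKr : 8 * ((K : ℝ) + 1) ≤ p := by exact_mod_cast hK
  have hν : (nuS a s p : ℝ) ≤ K + 1 := by exact_mod_cast nuS_le a s hp ha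
  have hν0 : (0 : ℝ) ≤ nuS a s p := Nat.cast_nonneg _
  have h1 : (nuS a s p : ℝ) / p ≤ 1 := by
    rw [div_le_one hp0]
    linarith
  have h1' : 0 ≤ (nuS a s p : ℝ) / p := by positivity
  have h2 : 1 / (p : ℝ) ≤ 1 / 2 := one_div_le_one_div_of_le two_pos hp2
  have h3 : (7 : ℝ) / 8 ≤ (1 - 1 / (p : ℝ)) ^ (K + 1) := by
    have h4 := one_add_mul_le_pow (a := -(1 / (p : ℝ))) (by linarith) (K + 1)
    push_cast at h4
    have h5 : ((K : ℝ) + 1) * (1 / p) ≤ 1 / 8 := by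
      rw [mul_one_div, div_le_div_iff₀ hp0 (by norm_num)]
      linarith
    have h6 : 1 + ((K : ℝ) + 1) * (-(1 / (p : ℝ))) = 1 - (K + 1) * (1 / p) := by ring
    rw [h6] at h4
    have h7 : (1 + -(1 / (p : ℝ))) ^ (K + 1) = (1 - 1 / (p : ℝ)) ^ (K + 1) := by ring
    rw [h7] at h4
    linarith
  have h4 : 0 < (1 - 1 / (p : ℝ)) ^ (K + 1) := by linarith
  unfold locS
  constructor
  · exact div_nonneg (by linarith) h4.le
  · rw [div_le_iff₀ h4]
    linarith

theorem abs_locS {K : ℕ} (a : Fin K → ℤ) (s : Fin K → ℕ) {p : ℕ} (hp : p.Prime)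
    (ha : ∀ i, ¬ (p : ℤ) ∣ a i) (hK : 8 * (K + 1) ≤ p) :
    |locS a s p - 1| ≤ 1 := by
  obtain ⟨h1, h2⟩ := locS_bds a s hp ha hK
  rw [abs_le]
  constructor <;> linarith

variable {W : ℕ} [NeZero W]

omit [NeZero W] in
theorem len_le {K : ℕ} (X : ℕ) (a : Fin K → ℤ) (ha : ∀ i, a i ≠ 0) (i : Fin K) :
    (X : ℝ) / W ≤ (((a i).natAbs * X : ℕ) : ℝ) / W := by
  have h1 : X ≤ (a i).natAbs * X :=
    Nat.le_mul_of_pos_left X (Int.natAbs_pos.2 (ha i))
  have h2 : (X : ℝ) ≤ (((a i).natAbs * X : ℕ) : ℝ) := by exact_mod_cast h1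
  exact div_le_div_of_nonneg_right h2 (Nat.cast_nonneg _)

theorem diag (hLM : S_LMS') {K X p : ℕ} (a : Fin K → ℤ) (ha0 : ∀ i, a i ≠ 0) (hp : p.Prime)
    (ha : ∀ i, ¬ (p : ℤ) ∣ a i) (hK : 8 * (K + 1) ≤ p) (hW : W.Coprime p)
    (hT : 4 * (K + 1) * (p : ℝ) ≤ (X : ℝ) / W) (b : Fin K → ZMod W) :
    ∑ s ∈ SbS X a b, (locS a s p - 1) ^ 2 ≤
      (8 * ((K : ℝ) + 1) ^ 2 / (p : ℝ) ^ 3 + 8 * K * p / ((X : ℝ) / W)) * (SbS X a b).card := by
  have hp0 : (0 : ℝ) < p := by exact_mod_cast hp.pos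
  have h1 := den (fun i => bcl X (a i) (b i)) (fun s => s % p) (range p) ((X : ℝ) / W)
    (fun i => (((a i).natAbs * X : ℕ) : ℝ) / W) (len_le X a ha0)
    ⟨0, mem_range.2 hp.pos⟩ (by rw [card_range]; exact hT)
    (fun i s _ => mem_range.2 (Nat.mod_lt _ hp.pos)) (fun i x hx => by
      rw [card_range]
      have h2 := cnt_bcl X (a i) p x hp.pos hW (b i)
      have h3 : (bcl X (a i) (b i)).filter (fun s => s % p = x) =
          (bcl X (a i) (b i)).filter fun s => s ≡ x [MOD p] := by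
        refine filter_congr fun s _ => ?_
        rw [Nat.ModEq, Nat.mod_eq_of_lt (mem_range.1 hx)]
      rw [h3]
      exact h2) (fun x => (locS a x p - 1) ^ 2) (fun x _ => by
      rw [abs_of_nonneg (sq_nonneg _)]
      have := abs_locS a x hp ha hK
      nlinarith [sq_abs (locS a x p - 1), abs_nonneg (locS a x p - 1)])
  rw [card_range] at h1
  simp only [locS_mod] at h1
  have h2 := (hLM p K a hp hK ha).2
  have h3 := (abs_le.1 h1).2
  change ∑ s ∈ SbS X a b, (locS a s p - 1) ^ 2 - ((SbS X a b).card : ℝ) / (p : ℝ) ^ K *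
    ∑ x ∈ Fintype.piFinset (fun _ : Fin K => range p), (locS a x p - 1) ^ 2 ≤
      8 * K * p / ((X : ℝ) / W) * (SbS X a b).card at h3
  have h4 : ((SbS X a b).card : ℝ) / (p : ℝ) ^ K *
    ∑ x ∈ Fintype.piFinset (fun _ : Fin K => range p), (locS a x p - 1) ^ 2 ≤
      ((SbS X a b).card : ℝ) / (p : ℝ) ^ K * (8 * ((K : ℝ) + 1) ^ 2 / (p : ℝ) ^ 3 * (p : ℝ) ^ K) := by
    gcongr
  have h5 : ((SbS X a b).card : ℝ) / (p : ℝ) ^ K *
      (8 * ((K : ℝ) + 1) ^ 2 / (p : ℝ) ^ 3 * (p : ℝ) ^ K) =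
      8 * ((K : ℝ) + 1) ^ 2 / (p : ℝ) ^ 3 * (SbS X a b).card := by
    have : (p : ℝ) ^ K ≠ 0 := by positivity
    field_simp
  rw [h5] at h4
  linarith

theorem offdiag (hLM : S_LMS') {K X p p' : ℕ} (a : Fin K → ℤ) (ha0 : ∀ i, a i ≠ 0)
    (hp : p.Prime) (ha : ∀ i, ¬ (p : ℤ) ∣ a i) (hK : 8 * (K + 1) ≤ p) (hW : W.Coprime p)
    (hp' : p'.Prime) (ha' : ∀ i, ¬ (p' : ℤ) ∣ a i) (hK' : 8 * (K + 1) ≤ p')
    (hW' : W.Coprime p') (hne : p ≠ p')
    (hT : 4 * (K + 1) * ((p : ℝ) * p') ≤ (X : ℝ) / W) (b : Fin K → ZMod W) :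
    ∑ s ∈ SbS X a b, (locS a s p - 1) * (locS a s p' - 1) ≤
      8 * K * ((p : ℝ) * p') / ((X : ℝ) / W) * (SbS X a b).card := by
  have hco : p.Coprime p' := (Nat.coprime_primes hp hp').2 hne
  have hcard : ((range p ×ˢ range p').card : ℝ) = (p : ℝ) * p' := by
    rw [card_product, card_range, card_range]
    push_cast
    rfl
  have h1 := den (fun i => bcl X (a i) (b i)) (fun s => (s % p, s % p')) (range p ×ˢ range p')
    ((X : ℝ) / W) (fun i => (((a i).natAbs * X : ℕ) : ℝ) / W) (len_le X a ha0)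
    ⟨(0, 0), mem_product.2 ⟨mem_range.2 hp.pos, mem_range.2 hp'.pos⟩⟩ (by rw [hcard]; exact hT)
    (fun i s _ => mem_product.2 ⟨mem_range.2 (Nat.mod_lt _ hp.pos),
      mem_range.2 (Nat.mod_lt _ hp'.pos)⟩) (fun i x hx => by
      rw [hcard]
      rw [mem_product, mem_range, mem_range] at hx
      obtain ⟨c, hc1, hc2⟩ := Nat.chineseRemainder hco x.1 x.2
      have h2 := cnt_bcl X (a i) (p * p') c (Nat.mul_pos hp.pos hp'.pos) (hW.mul_right hW') (b i)
      have h3 : (bcl X (a i) (b i)).filter (fun s => (s % p, s % p') = x) =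
          (bcl X (a i) (b i)).filter fun s => s ≡ c [MOD (p * p')] := by
        refine filter_congr fun s _ => ?_
        rw [← Nat.modEq_and_modEq_iff_modEq_mul hco, Prod.ext_iff]
        have e1 : s % p = x.1 ↔ s ≡ c [MOD p] := by
          have : c % p = x.1 := by
            rw [hc1, Nat.mod_eq_of_lt hx.1]
          rw [Nat.ModEq, this]
        have e2 : s % p' = x.2 ↔ s ≡ c [MOD p'] := by
          have : c % p' = x.2 := by
            rw [hc2, Nat.mod_eq_of_lt hx.2]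
          rw [Nat.ModEq, this]
        exact and_congr e1 e2
      rw [h3]
      rw [Nat.cast_mul p p'] at h2
      exact h2)
      (fun x => (locS a (fun i => (x i).1) p - 1) * (locS a (fun i => (x i).2) p' - 1))
      (fun x _ => by
        rw [abs_mul]
        exact mul_le_one₀ (abs_locS a _ hp ha hK) (abs_nonneg _) (abs_locS a _ hp' ha' hK'))
  rw [hcard] at h1
  have h2 : ∑ x ∈ Fintype.piFinset (fun _ : Fin K => range p ×ˢ range p'),
      (locS a (fun i => (x i).1) p - 1) * (locS a (fun i => (x i).2) p' - 1) = 0 := by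
    rw [Pool.Agent.Q261.SZ.piProd (range p) (range p') (fun x => locS a x p - 1)
      (fun x => locS a x p' - 1), (hLM p K a hp hK ha).1, zero_mul]
  rw [h2, mul_zero, sub_zero] at h1
  simp only [locS_mod] at h1
  exact (abs_le.1 h1).2

theorem var_gen (hLM : S_LMS') {C : ℝ} (hC : 0 < C) (hSQ : ∀ z w : ℕ, 2 ≤ z →
    ∑ p ∈ (Ioc z w).filter Nat.Prime, 1 / (p : ℝ) ^ 3 ≤ C / ((z : ℝ) ^ 2 * Real.log z))
    (z X Y K : ℕ) (a : Fin K → ℤ) (hz : 2 ≤ z) (hK : 8 * (K + 1) ≤ z)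
    (ha : ∀ i, a i ≠ 0 ∧ (a i).natAbs ≤ z)
    (hX : 16 * (K + 1) * (Y : ℝ) ^ 4 * W ≤ X)
    (hco : ∀ p : ℕ, p.Prime → z < p → W.Coprime p) (b : Fin K → ZMod W) :
    ∑ s ∈ SbS X a b, (∑ p ∈ (Ioc z Y).filter Nat.Prime, (locS a s p - 1)) ^ 2 ≤
      (C / Real.log z + 16 * (K + 1) * (Y : ℝ) ^ 4 * W / X) * (SbS X a b).card ∧
    ∑ s ∈ SbS X a b, ∑ p ∈ (Ioc z Y).filter Nat.Prime, (locS a s p - 1) ^ 2 ≤
      (C / Real.log z + 16 * (K + 1) * (Y : ℝ) ^ 4 * W / X) * (SbS X a b).card := by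
  set P := (Ioc z Y).filter Nat.Prime with hP
  have hW0 : (0 : ℝ) < W := by exact_mod_cast Nat.pos_of_ne_zero (NeZero.ne W)
  have ha0 : ∀ i, a i ≠ 0 := fun i => (ha i).1
  have hmem : ∀ p ∈ P, p.Prime ∧ z < p ∧ p ≤ Y ∧ 8 * (K + 1) ≤ p ∧ W.Coprime p ∧
      ∀ i, ¬ (p : ℤ) ∣ a i := by
    intro p hp
    rw [hP, mem_filter, mem_Ioc] at hp
    refine ⟨hp.2, hp.1.1, hp.1.2, by omega, hco p hp.2 hp.1.1, fun i hd => ?_⟩
    have h1 : p ∣ (a i).natAbs := Int.natCast_dvd.1 hd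
    have h2 := Nat.le_of_dvd (Int.natAbs_pos.2 (ha i).1) h1
    have h3 := (ha i).2
    omega
  have hlog : 0 < Real.log z := Real.log_pos (by exact_mod_cast (show 1 < z by omega))
  set N : ℝ := ((SbS X a b).card : ℝ) with hN
  have hN0 : 0 ≤ N := Nat.cast_nonneg _
  set T : ℝ := (X : ℝ) / W with hT
  rcases P.eq_empty_or_nonempty with hPe | ⟨p0, hp0⟩
  · rw [hPe]
    simp only [sum_empty]
    have h1 : 0 ≤ (C / Real.log z + 16 * (K + 1) * (Y : ℝ) ^ 4 * W / X) * N := by positivity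
    constructor
    · simpa using h1
    · simpa using h1
  have hY1 : (1 : ℝ) ≤ Y := by
    have := hmem p0 hp0
    have h2 := this.1.pos
    exact_mod_cast (show 1 ≤ Y by omega)
  have hTY : 16 * (K + 1) * (Y : ℝ) ^ 4 ≤ T := by
    rw [hT, le_div_iff₀ hW0]
    exact hX
  have hT0 : 0 < T := lt_of_lt_of_le (by positivity) hTY
  have hY2 : (Y : ℝ) ^ 2 ≤ (Y : ℝ) ^ 4 := pow_le_pow_right₀ hY1 (by norm_num)
  have hY12 : (Y : ℝ) ≤ (Y : ℝ) ^ 2 := by nlinarith
  have hKr : (0 : ℝ) ≤ K := Nat.cast_nonneg _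
  have hcard : (P.card : ℝ) ≤ Y := by
    have h1 : P.card ≤ (Ioc z Y).card := card_filter_le _ _
    rw [Nat.card_Ioc] at h1
    exact_mod_cast (show P.card ≤ Y by omega)
  have hX0 : 0 < (X : ℝ) := by
    have : T * W = X := by rw [hT]; field_simp
    rw [← this]
    positivity
  have hsq : ∑ p ∈ P, 8 * ((K : ℝ) + 1) ^ 2 / (p : ℝ) ^ 3 ≤ C / Real.log z := by
    have h1 : ∑ p ∈ P, 8 * ((K : ℝ) + 1) ^ 2 / (p : ℝ) ^ 3 =
        8 * ((K : ℝ) + 1) ^ 2 * ∑ p ∈ P, 1 / (p : ℝ) ^ 3 := by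
      rw [mul_sum]
      exact sum_congr rfl fun _ _ => by ring
    rw [h1]
    have h2 := hSQ z Y hz
    have hz0 : (0 : ℝ) < z := by exact_mod_cast (show 0 < z by omega)
    have h3 : 8 * ((K : ℝ) + 1) ^ 2 ≤ (z : ℝ) ^ 2 := by
      have : 8 * ((K : ℝ) + 1) ≤ z := by exact_mod_cast hK
      nlinarith
    calc 8 * ((K : ℝ) + 1) ^ 2 * ∑ p ∈ P, 1 / (p : ℝ) ^ 3 ≤
          (z : ℝ) ^ 2 * (C / ((z : ℝ) ^ 2 * Real.log z)) := by
            refine mul_le_mul h3 h2 (sum_nonneg fun _ _ => by positivity) (by positivity)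
      _ = C / Real.log z := by field_simp
  have hWX : (W : ℝ) / X = 1 / T := by
    rw [hT]
    field_simp
  have hrhs : C / Real.log z + 16 * (K + 1) * (Y : ℝ) ^ 4 * W / X =
      C / Real.log z + 16 * (K + 1) * (Y : ℝ) ^ 4 / T := by
    rw [mul_div_assoc _ (W : ℝ), hWX]
    ring
  rw [hrhs]
  have hd : ∀ p ∈ P, ∑ s ∈ SbS X a b, (locS a s p - 1) ^ 2 ≤
      8 * ((K : ℝ) + 1) ^ 2 / (p : ℝ) ^ 3 * N + 8 * K * (Y : ℝ) ^ 2 / T * N := by
    intro p hp
    obtain ⟨h1, h2, h3, h4, h5, hap⟩ := hmem p hp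
    have h3' : (p : ℝ) ≤ Y := by exact_mod_cast h3
    have h6 : 4 * (K + 1) * (p : ℝ) ≤ T := by
      refine le_trans ?_ hTY
      have : (p : ℝ) ≤ (Y : ℝ) ^ 4 := by linarith
      nlinarith
    have h7 := diag hLM a ha0 h1 hap h4 h5 h6 b
    rw [← hT, ← hN] at h7
    refine h7.trans ?_
    rw [add_mul]
    have h8 : 8 * (K : ℝ) * p / T ≤ 8 * K * (Y : ℝ) ^ 2 / T := by
      gcongr
      linarith
    have h9 := mul_le_mul_of_nonneg_right h8 hN0
    linarith
  have ho : ∀ p ∈ P, ∀ p' ∈ P, ∑ s ∈ SbS X a b, (locS a s p - 1) * (locS a s p' - 1) ≤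
      (if p = p' then 8 * ((K : ℝ) + 1) ^ 2 / (p : ℝ) ^ 3 * N else 0) +
        8 * K * (Y : ℝ) ^ 2 / T * N := by
    intro p hp p' hp'
    split_ifs with h
    · subst h
      have := hd p hp
      simpa only [← sq] using this
    · obtain ⟨h1, h2, h3, h4, h5, hap⟩ := hmem p hp
      obtain ⟨k1, k2, k3, k4, k5, kap⟩ := hmem p' hp'
      have h3' : (p : ℝ) ≤ Y := by exact_mod_cast h3
      have k3' : (p' : ℝ) ≤ Y := by exact_mod_cast k3
      have hpp : (p : ℝ) * p' ≤ (Y : ℝ) ^ 2 := by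
        rw [sq]
        gcongr
      have h6 : 4 * (K + 1) * ((p : ℝ) * p') ≤ T := by
        refine le_trans ?_ hTY
        have : (p : ℝ) * p' ≤ (Y : ℝ) ^ 4 := by linarith
        have h0 : (0 : ℝ) ≤ (p : ℝ) * p' := by positivity
        nlinarith
      have h7 := offdiag hLM a ha0 h1 hap h4 h5 k1 kap k4 k5 h h6 b
      refine h7.trans ?_
      rw [zero_add]
      have h8 : 8 * (K : ℝ) * ((p : ℝ) * p') / T ≤ 8 * K * (Y : ℝ) ^ 2 / T := by
        gcongr
      exact mul_le_mul_of_nonneg_right h8 hN0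
  constructor
  · have h1 : ∑ s ∈ SbS X a b, (∑ p ∈ P, (locS a s p - 1)) ^ 2 =
        ∑ p ∈ P, ∑ p' ∈ P, ∑ s ∈ SbS X a b, (locS a s p - 1) * (locS a s p' - 1) := by
      have h2 : ∀ s : Fin K → ℕ, (∑ p ∈ P, (locS a s p - 1)) ^ 2 =
          ∑ p ∈ P, ∑ p' ∈ P, (locS a s p - 1) * (locS a s p' - 1) := by
        intro s
        rw [sq, sum_mul_sum]
      simp only [h2]
      rw [sum_comm]
      refine sum_congr rfl fun p _ => ?_
      rw [sum_comm]
    rw [h1]
    refine (sum_le_sum fun p hp => sum_le_sum fun p' hp' => ho p hp p' hp').trans ?_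
    simp only [sum_add_distrib, sum_ite_eq, sum_const, nsmul_eq_mul]
    have h2 : ∑ p ∈ P, (if p ∈ P then 8 * ((K : ℝ) + 1) ^ 2 / (p : ℝ) ^ 3 * N else 0) =
        (∑ p ∈ P, 8 * ((K : ℝ) + 1) ^ 2 / (p : ℝ) ^ 3) * N := by
      rw [sum_mul]
      exact sum_congr rfl fun p hp => if_pos hp
    rw [h2]
    have h3 : (P.card : ℝ) * (P.card * (8 * K * (Y : ℝ) ^ 2 / T * N)) ≤
        16 * (K + 1) * (Y : ℝ) ^ 4 / T * N := by
      calc (P.card : ℝ) * (P.card * (8 * K * (Y : ℝ) ^ 2 / T * N)) ≤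
            Y * (Y * (8 * K * (Y : ℝ) ^ 2 / T * N)) := by gcongr
        _ = 8 * K * (Y : ℝ) ^ 4 / T * N := by ring
        _ ≤ 16 * (K + 1) * (Y : ℝ) ^ 4 / T * N := by
          refine mul_le_mul_of_nonneg_right ?_ hN0
          gcongr
          · norm_num
          · linarith
    have h4 := mul_le_mul_of_nonneg_right hsq hN0
    rw [add_mul]
    linarith
  · rw [sum_comm]
    refine (sum_le_sum hd).trans ?_
    rw [sum_add_distrib, ← sum_mul, sum_const, nsmul_eq_mul, add_mul]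
    have h3 : (P.card : ℝ) * (8 * K * (Y : ℝ) ^ 2 / T * N) ≤
        16 * (K + 1) * (Y : ℝ) ^ 4 / T * N := by
      calc (P.card : ℝ) * (8 * K * (Y : ℝ) ^ 2 / T * N) ≤
            Y * (8 * K * (Y : ℝ) ^ 2 / T * N) := by gcongr
        _ ≤ (Y : ℝ) ^ 2 * (8 * K * (Y : ℝ) ^ 2 / T * N) := by gcongr
        _ = 8 * K * (Y : ℝ) ^ 4 / T * N := by ring
        _ ≤ 16 * (K + 1) * (Y : ℝ) ^ 4 / T * N := by
          refine mul_le_mul_of_nonneg_right ?_ hN0
          gcongr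
          · norm_num
          · linarith
    have h4 := mul_le_mul_of_nonneg_right hsq hN0
    linarith

end VarS

theorem t_VARS : S_VARS := by
  intro hLM hSQ
  obtain ⟨C, hC, hSQ⟩ := hSQ
  exact ⟨C, hC, fun z X Y K a hz hK ha hX b => VarS.var_gen hLM hC hSQ z X Y K a hz hK ha hX
    (fun p hp hzp => Pool.Agent.Q261.SZ.coprime_PW hp hzp) b⟩

end Pool.Agent.Q145.LS
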